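import Mathlib

set_option autoImplicit false
set_option linter.unusedSectionVars false

/-!
Graphical cakes, connected pieces, valuations, maximin shares and the maximin share rank.
-/

namespace Pool.Agent.Helper73.ARP

open Set MeasureTheory

variable {V : Type} [Fintype V] [DecidableEq V]

/-- The point with parameter `t` on the edge from `u` to `w` in the realisation of a graph in
`ℝ^V`: the point `(1 - t) e_u + t e_w`. -/
def pt (u w : V) (t : ℝ) : V → ℝ :=
  fun x => (if x = u then 1 - t else 0) + (if x = w then t else 0)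

/-- The cake: the topological space of the graph, i.e. all vertices `e_u` and all points of closed
edges, as a subset of `ℝ^V`. -/
def cake (G : SimpleGraph V) : Set (V → ℝ) :=
  {x | (∃ u, x = Pi.single u 1) ∨ ∃ u w, G.Adj u w ∧ ∃ t ∈ Icc (0 : ℝ) 1, x = pt u w t}

/-- An interval (open, closed, half-open or degenerate) lying in an edge. -/
def IsInterval (G : SimpleGraph V) (I : Set (V → ℝ)) : Prop :=
  ∃ u w, G.Adj u w ∧ ∃ T : Set ℝ, T ⊆ Icc 0 1 ∧ T.OrdConnected ∧ I = pt u w '' T

/-- A piece: a finite union of intervals lying in edges. -/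
def IsPiece (G : SimpleGraph V) (X : Set (V → ℝ)) : Prop :=
  ∃ F : Finset (Set (V → ℝ)), (∀ I ∈ F, IsInterval G I) ∧ X = ⋃ I ∈ F, I

/-- A connected piece: any two of its points are joined by a path inside the piece. -/
def IsConnectedPiece (G : SimpleGraph V) (X : Set (V → ℝ)) : Prop :=
  IsPiece G X ∧ ∀ x ∈ X, ∀ y ∈ X, JoinedIn X x y

/-- An allocation of pairwise disjoint connected pieces to `n` agents. -/
def IsAllocation (G : SimpleGraph V) {n : ℕ} (X : Fin n → Set (V → ℝ)) : Prop :=
  (∀ i, IsConnectedPiece G (X i)) ∧ ∀ i j, i ≠ j → Disjoint (X i) (X j)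

/-- A partition of the cake into `k` pairwise disjoint connected pieces. -/
def IsPartition (G : SimpleGraph V) {k : ℕ} (P : Fin k → Set (V → ℝ)) : Prop :=
  IsAllocation G P ∧ ⋃ j, P j = cake G

/-- Lebesgue measure on the parameter interval `[0, 1]` of an edge. -/
noncomputable def unitMeasure : Measure ℝ := volume.restrict (Icc (0 : ℝ) 1)

open Classical in
/-- The total length of the symmetric difference of two pieces (every edge is counted in both of
its directions). -/
noncomputable def pieceDist (G : SimpleGraph V) (X Y : Set (V → ℝ)) : ℝ :=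
  ∑ u, ∑ w, if G.Adj u w then unitMeasure.real {t | pt u w t ∈ symmDiff X Y} else 0

/-- A valuation: nonnegative, monotone and continuous on pieces. -/
def IsValuation (G : SimpleGraph V) (v : Set (V → ℝ) → ℝ) : Prop :=
  (∀ X, IsPiece G X → 0 ≤ v X) ∧
  (∀ X Y, IsPiece G X → IsPiece G Y → X ⊆ Y → v X ≤ v Y) ∧
  (∀ ε > 0, ∃ δ > 0, ∀ X Y, IsPiece G X → IsPiece G Y → pieceDist G X Y < δ → |v X - v Y| < ε)

/-- Additivity on disjoint pieces. -/
def IsAdditive (G : SimpleGraph V) (v : Set (V → ℝ) → ℝ) : Prop :=
  ∀ X Y, IsPiece G X → IsPiece G Y → Disjoint X Y → v (X ∪ Y) = v X + v Y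

/-- The 1-out-of-`k` maximin share: the supremum over all partitions into `k` connected pieces of
the least value of a part. -/
noncomputable def mms (G : SimpleGraph V) (k : ℕ) (v : Set (V → ℝ) → ℝ) : ℝ :=
  sSup {a | ∃ P : Fin k → Set (V → ℝ), IsPartition G P ∧ ∀ j, a ≤ v (P j)}

/-- The guarantee behind the rank: for every `n ≥ 1` and any `n` agents with additive valuations
some allocation gives every agent `i` at least `MMS_i^{n+r}`. -/
def GuaranteeAdd (G : SimpleGraph V) (r : ℕ) : Prop :=
  ∀ n : ℕ, 1 ≤ n → ∀ v : Fin n → Set (V → ℝ) → ℝ,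
    (∀ i, IsValuation G (v i) ∧ IsAdditive G (v i)) →
    ∃ X : Fin n → Set (V → ℝ), IsAllocation G X ∧ ∀ i, mms G (n + r) (v i) ≤ v i (X i)

/-- `MmsRankAdd(G)`, the least `r` with the guarantee (infinity if there is none). -/
noncomputable def mmsRankAdd (G : SimpleGraph V) : ℕ∞ := ⨅ (r : ℕ) (_ : GuaranteeAdd G r), (r : ℕ∞)

end Pool.Agent.Helper73.ARP
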