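import Pool.Agent.Helper73.ARP.Defs

set_option autoImplicit false
set_option linter.unusedSectionVars false

/-!
A graphical cake with additive valuations for which the maximin shares `MMS^n` cannot all be met.
The construction simulates an indivisible instance on a cycle by a sun graph: proofs.
-/

namespace Pool.Agent.Helper73.ARP

open Set MeasureTheory

variable {V : Type} [Fintype V] [DecidableEq V]

/-! ### General facts -/

lemma pt_left (u w : V) : pt u w 0 = Pi.single u 1 := by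
  funext x
  by_cases h : x = u
  · subst h; simp [pt]
  · simp [pt, h]

lemma pt_right (u w : V) : pt u w 1 = Pi.single w 1 := by
  funext x
  by_cases h : x = w
  · subst h; simp [pt]
  · simp [pt, h]

lemma pt_symm (u w : V) (t : ℝ) : pt u w t = pt w u (1 - t) := by
  funext x
  simp [pt, add_comm]

lemma continuous_pt (u w : V) : Continuous (pt u w) := by
  refine continuous_pi fun x => ?_
  unfold pt
  refine Continuous.add ?_ ?_
  · split_ifs <;> fun_prop
  · split_ifs <;> fun_prop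

lemma pt_apply_left {u w : V} (h : u ≠ w) (t : ℝ) : pt u w t u = 1 - t := by
  simp [pt, h]

lemma pt_apply_right {u w : V} (h : u ≠ w) (t : ℝ) : pt u w t w = t := by
  simp [pt, h.symm]

lemma pt_apply_other {u w x : V} (h1 : x ≠ u) (h2 : x ≠ w) (t : ℝ) : pt u w t x = 0 := by
  simp [pt, h1, h2]

lemma interval_measurable {G : SimpleGraph V} {I : Set (V → ℝ)} (h : IsInterval G I) :
    MeasurableSet I := by
  obtain ⟨u, w, huw, T, _, hT, rfl⟩ := h
  have h1 : pt u w '' T = {x : V → ℝ | x w ∈ T} ∩ {x : V → ℝ | x = pt u w (x w)} := by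
    ext x
    constructor
    · rintro ⟨t, ht, rfl⟩
      simp only [mem_inter_iff, mem_ofPred_eq, pt_apply_right huw.ne]
      exact ⟨ht, trivial⟩
    · rintro ⟨h1, h2⟩
      exact ⟨x w, h1, h2.symm⟩
  rw [h1]
  refine MeasurableSet.inter ((measurable_pi_apply w) hT.measurableSet) ?_
  exact measurableSet_eq_fun measurable_id
    ((continuous_pt u w).measurable.comp (measurable_pi_apply w))

lemma piece_measurable {G : SimpleGraph V} {X : Set (V → ℝ)} (h : IsPiece G X) :
    MeasurableSet X := by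
  obtain ⟨F, hF, rfl⟩ := h
  exact F.measurableSet_biUnion fun I hI => interval_measurable (hF I hI)

lemma piece_subset_cake {G : SimpleGraph V} {X : Set (V → ℝ)} (h : IsPiece G X) :
    X ⊆ cake G := by
  obtain ⟨F, hF, rfl⟩ := h
  intro x hx
  simp only [mem_iUnion] at hx
  obtain ⟨I, hI, hx⟩ := hx
  obtain ⟨u, w, huw, T, hT, _, rfl⟩ := hF I hI
  obtain ⟨t, ht, rfl⟩ := hx
  exact Or.inr ⟨u, w, huw, t, hT ht, rfl⟩

/-- separation: if the neighbours of `S` outside `S` lie in the independent set `B` and the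
connected set `X` contains no vertex of `B`, then `X` lies on one side. -/
lemma separation {G : SimpleGraph V} (S B : Finset V) (hSB : ∀ u ∈ S, ∀ w, G.Adj u w → w ∉ S → w ∈ B)
    (hdisj : Disjoint S B) (hB : ∀ u ∈ B, ∀ w ∈ B, ¬ G.Adj u w) {X : Set (V → ℝ)} (hX : X ⊆ cake G)
    (hconn : IsPreconnected X) (hBX : ∀ b ∈ B, (Pi.single b 1 : V → ℝ) ∉ X)
    {x y : V → ℝ} (hx : x ∈ X) (hy : y ∈ X) (hxS : 0 < ∑ u ∈ S, x u) : 0 < ∑ u ∈ S, y u := by
  by_contra hcon
  push Not at hcon
  -- nonnegativity and coordinates on the cake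
  have hnonneg : ∀ z ∈ cake G, ∀ u, 0 ≤ z u := by
    rintro z (⟨u, rfl⟩ | ⟨u, w, huw, t, ht, rfl⟩) a
    · by_cases h : a = u
      · subst h; simp
      · simp [h]
    · simp only [pt]
      split_ifs <;> linarith [ht.1, ht.2]
  have hU : IsOpen {z : V → ℝ | 0 < ∑ u ∈ S, z u} :=
    isOpen_lt continuous_const (by fun_prop)
  have hW : IsOpen {z : V → ℝ | ∑ u ∈ S ∪ B, z u < 1} :=
    isOpen_lt (by fun_prop) continuous_const
  have hsumpt : ∀ (u w : V) (t : ℝ) (A : Finset V), ∑ a ∈ A, pt u w t a =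
      (if u ∈ A then 1 - t else 0) + (if w ∈ A then t else 0) := by
    intro u w t A
    simp only [pt, Finset.sum_add_distrib, Finset.sum_ite_eq']
  have hsum1 : ∀ (u : V) (A : Finset V), ∑ a ∈ A, (Pi.single u 1 : V → ℝ) a =
      if u ∈ A then 1 else 0 := by
    intro u A
    rw [← pt_left u u, hsumpt]
    split_ifs <;> simp
  -- on the cake the two open sets are disjoint
  have hdis : ∀ z ∈ cake G, 0 < ∑ u ∈ S, z u → ¬ (∑ u ∈ S ∪ B, z u < 1) := by
    rintro z (⟨u, rfl⟩ | ⟨u, w, huw, t, ht, rfl⟩) h1 h2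
    · rw [hsum1] at h1 h2
      by_cases hu : u ∈ S
      · simp [hu] at h2
      · simp [hu] at h1
    · rw [hsumpt] at h1 h2
      by_cases hu : u ∈ S
      · have hw : w ∈ S ∪ B := by
          by_cases hw : w ∈ S
          · exact Finset.mem_union_left _ hw
          · exact Finset.mem_union_right _ (hSB u hu w huw hw)
        rw [if_pos (Finset.mem_union_left _ hu), if_pos hw] at h2
        linarith
      · by_cases hw : w ∈ S
        · have hu' : u ∈ S ∪ B := Finset.mem_union_right _ (hSB w hw u huw.symm hu)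
          rw [if_pos hu', if_pos (Finset.mem_union_left _ hw)] at h2
          linarith
        · rw [if_neg hu, if_neg hw] at h1
          linarith
  -- they cover X
  have hcov : ∀ z ∈ X, 0 < ∑ u ∈ S, z u ∨ ∑ u ∈ S ∪ B, z u < 1 := by
    intro z hz
    by_contra hc
    push Not at hc
    obtain ⟨h1, h2⟩ := hc
    rcases hX hz with ⟨u, rfl⟩ | ⟨u, w, huw, t, ht, rfl⟩
    · rw [hsum1] at h1 h2
      by_cases hu : u ∈ S
      · simp [hu] at h1; linarith
      · by_cases hu' : u ∈ B
        · exact hBX u hu' hz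
        · rw [if_neg (by simp [hu, hu'])] at h2
          linarith
    · have hedge : ∀ (u w : V) (t : ℝ), G.Adj u w → t ∈ Icc (0 : ℝ) 1 → pt u w t ∈ X →
          ∑ a ∈ S, pt u w t a ≤ 0 → 1 ≤ ∑ a ∈ S ∪ B, pt u w t a → u ∈ S ∪ B → False := by
        intro u w t huw ht hz h1 h2 hu
        rw [hsumpt] at h1 h2
        rw [if_pos hu] at h2
        by_cases hw : w ∈ S ∪ B
        · -- both ends in S ∪ B
          rcases Finset.mem_union.mp hu with huS | huB
          · rw [if_pos huS] at h1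
            rcases Finset.mem_union.mp hw with hwS | hwB
            · rw [if_pos hwS] at h1; linarith
            · rw [if_neg (Finset.disjoint_right.mp hdisj hwB)] at h1
              have : t = 1 := by linarith [ht.2]
              subst this
              rw [pt_right] at hz
              exact hBX w hwB hz
          · rcases Finset.mem_union.mp hw with hwS | hwB
            · rw [if_neg (Finset.disjoint_right.mp hdisj huB), if_pos hwS] at h1
              have : t = 0 := by linarith [ht.1]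
              subst this
              rw [pt_left] at hz
              exact hBX u huB hz
            · exact hB u huB w hwB huw
        · rw [if_neg hw] at h2
          have : t = 0 := by linarith [ht.1]
          subst this
          rw [pt_left] at hz
          rcases Finset.mem_union.mp hu with huS | huB
          · rw [if_pos huS] at h1
            split_ifs at h1 <;> linarith
          · exact hBX u huB hz
      by_cases hu : u ∈ S ∪ B
      · exact hedge u w t huw ht hz h1 h2 hu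
      · by_cases hw : w ∈ S ∪ B
        · have ht' : (1 - t) ∈ Icc (0 : ℝ) 1 := ⟨by linarith [ht.2], by linarith [ht.1]⟩
          rw [pt_symm] at hz h1 h2
          exact hedge w u (1 - t) huw.symm ht' hz h1 h2 hw
        · rw [hsumpt, if_neg hu, if_neg hw] at h2
          linarith
  obtain ⟨z, hz, hz1, hz2⟩ := hconn _ _ hU hW (fun z hz => hcov z hz) ⟨x, hx, hxS⟩
    ⟨y, hy, (hcov y hy).resolve_left (not_lt.mpr hcon)⟩
  exact hdis z (hX hz) hz1 hz2

lemma connected_preconnected {G : SimpleGraph V} {X : Set (V → ℝ)} (h : IsConnectedPiece G X) :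
    IsPreconnected X := by
  by_cases hne : X.Nonempty
  · obtain ⟨x, hx⟩ := hne
    exact (IsPathConnected.isConnected ⟨x, hx, fun {y} hy => h.2 x hx y hy⟩).isPreconnected
  · rw [Set.not_nonempty_iff_eq_empty] at hne
    rw [hne]; exact isPreconnected_empty

/-! ### The sun graph -/

/-- The sun graph: a cycle of eight hubs `(i, false)` with a leaf `(i, true)` at every hub. -/
def sun : SimpleGraph (Fin 8 × Bool) where
  Adj p q := (p.1 = q.1 ∧ p.2 ≠ q.2) ∨
    (p.2 = false ∧ q.2 = false ∧ (q.1 = p.1 + 1 ∨ p.1 = q.1 + 1))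
  symm := ⟨by
    rintro p q (⟨h1, h2⟩ | ⟨h1, h2, h3⟩)
    · exact Or.inl ⟨h1.symm, h2.symm⟩
    · exact Or.inr ⟨h2, h1, h3.symm⟩⟩
  loopless := ⟨by
    rintro ⟨i, b⟩ (⟨_, h2⟩ | ⟨_, _, h3⟩)
    · exact h2 rfl
    · have h4 : i = i + 1 := by rcases h3 with h | h <;> exact h
      exact absurd h4 ((by decide : ∀ i : Fin 8, i ≠ i + 1) i)⟩

/-- hub `i` -/
abbrev hub (i : Fin 8) : Fin 8 × Bool := (i, false)
/-- leaf `i` -/
abbrev leaf (i : Fin 8) : Fin 8 × Bool := (i, true)

lemma adj_pend (i : Fin 8) : sun.Adj (hub i) (leaf i) := Or.inl ⟨rfl, by simp⟩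
lemma adj_cyc (i : Fin 8) : sun.Adj (hub i) (hub (i + 1)) := Or.inr ⟨rfl, rfl, Or.inl rfl⟩

/-- the valuation with weight `w i` spread uniformly on the pendant edge at hub `i` -/
noncomputable def val (w : Fin 8 → ℕ) (X : Set ((Fin 8 × Bool) → ℝ)) : ℝ :=
  ∑ i, (w i : ℝ) * unitMeasure.real {t | pt (hub i) (leaf i) t ∈ X}

instance : IsFiniteMeasure unitMeasure := by
  unfold unitMeasure
  infer_instance

lemma unit_univ : unitMeasure.real univ = 1 := by
  simp [unitMeasure, Measure.real]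

lemma val_nonneg (w : Fin 8 → ℕ) (X : Set ((Fin 8 × Bool) → ℝ)) : 0 ≤ val w X :=
  Finset.sum_nonneg fun _ _ => mul_nonneg (Nat.cast_nonneg _) measureReal_nonneg

lemma val_mono (w : Fin 8 → ℕ) {X Y : Set ((Fin 8 × Bool) → ℝ)} (h : X ⊆ Y) :
    val w X ≤ val w Y := by
  refine Finset.sum_le_sum fun i _ => mul_le_mul_of_nonneg_left ?_ (Nat.cast_nonneg _)
  exact measureReal_mono (fun t ht => h ht)

lemma preim_measurable {X : Set ((Fin 8 × Bool) → ℝ)} (h : IsPiece sun X) (u v : Fin 8 × Bool) :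
    MeasurableSet {t | pt u v t ∈ X} :=
  (continuous_pt u v).measurable (piece_measurable h)

lemma val_additive (w : Fin 8 → ℕ) : IsAdditive sun (val w) := by
  intro X Y hX hY hXY
  unfold val
  rw [← Finset.sum_add_distrib]
  refine Finset.sum_congr rfl fun i _ => ?_
  rw [← mul_add]
  congr 1
  have h1 : {t | pt (hub i) (leaf i) t ∈ X ∪ Y}
      = {t | pt (hub i) (leaf i) t ∈ X} ∪ {t | pt (hub i) (leaf i) t ∈ Y} := rfl
  rw [h1, measureReal_union _ (preim_measurable hY _ _)]
  rw [Set.disjoint_left]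
  intro t h2 h3
  exact Set.disjoint_left.mp hXY h2 h3

lemma val_valuation (w : Fin 8 → ℕ) (hw : ∀ i, w i ≤ 4) : IsValuation sun (val w) := by
  refine ⟨fun X _ => val_nonneg w X, fun X Y _ _ h => val_mono w h, ?_⟩
  intro ε hε
  refine ⟨ε / 4, by positivity, ?_⟩
  intro X Y hX hY hd
  have h1 : |val w X - val w Y| ≤ 4 * pieceDist sun X Y := by
    have h2 : val w X - val w Y = ∑ i, (w i : ℝ) * (unitMeasure.real {t | pt (hub i) (leaf i) t ∈ X}
        - unitMeasure.real {t | pt (hub i) (leaf i) t ∈ Y}) := by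
      unfold val
      rw [← Finset.sum_sub_distrib]
      exact Finset.sum_congr rfl fun i _ => by ring
    rw [h2]
    refine (Finset.abs_sum_le_sum_abs _ _).trans ?_
    have h3 : ∀ i, |(w i : ℝ) * (unitMeasure.real {t | pt (hub i) (leaf i) t ∈ X}
        - unitMeasure.real {t | pt (hub i) (leaf i) t ∈ Y})|
        ≤ 4 * unitMeasure.real {t | pt (hub i) (leaf i) t ∈ symmDiff X Y} := by
      intro i
      rw [abs_mul]
      refine mul_le_mul ?_ ?_ (abs_nonneg _) (by norm_num)
      · rw [Nat.abs_cast]; exact_mod_cast hw i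
      · refine (abs_measureReal_sub_le_measureReal_symmDiff
          (preim_measurable hX _ _).nullMeasurableSet
          (preim_measurable hY _ _).nullMeasurableSet).trans (le_of_eq ?_)
        rfl
    refine (Finset.sum_le_sum fun i _ => h3 i).trans ?_
    rw [← Finset.mul_sum]
    refine mul_le_mul_of_nonneg_left ?_ (by norm_num)
    -- the pendant terms are among the terms of the distance
    unfold pieceDist
    rw [← Finset.sum_product', Finset.univ_product_univ]
    have hinj : Function.Injective (fun i : Fin 8 => ((hub i, leaf i) :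
        (Fin 8 × Bool) × (Fin 8 × Bool))) := by
      intro i j h
      simpa using congrArg (fun p => p.1.1) h
    rw [← Finset.sum_image (s := Finset.univ)
      (f := fun p : (Fin 8 × Bool) × (Fin 8 × Bool) =>
        unitMeasure.real {t | pt p.1 p.2 t ∈ symmDiff X Y})
      (g := fun i : Fin 8 => ((hub i, leaf i) : (Fin 8 × Bool) × (Fin 8 × Bool)))
      (fun i _ j _ h => hinj h)]
    refine (Finset.sum_le_sum fun p hp => ?_).trans
      (Finset.sum_le_sum_of_subset_of_nonneg (Finset.subset_univ _) fun p _ _ => ?_)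
    · obtain ⟨i, _, rfl⟩ := Finset.mem_image.mp hp
      rw [if_pos (adj_pend i)]
    · split_ifs
      · exact measureReal_nonneg
      · exact le_rfl
  linarith

/-- the cell of hub `i`: its pendant edge and the half-open cycle edge leaving it -/
def cell (i : Fin 8) : Set ((Fin 8 × Bool) → ℝ) :=
  pt (hub i) (leaf i) '' Icc 0 1 ∪ pt (hub i) (hub (i + 1)) '' Ico 0 1

/-- two consecutive cells -/
def pair (i : Fin 8) : Set ((Fin 8 × Bool) → ℝ) :=
  (cell i ∪ pt (hub i) (hub (i + 1)) '' Icc 0 1) ∪ cell (i + 1)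

lemma hub_ne (i : Fin 8) : hub i ≠ hub (i + 1) := (adj_cyc i).ne

lemma mem_cell_hub (i : Fin 8) : (Pi.single (hub i) 1 : (Fin 8 × Bool) → ℝ) ∈ cell i :=
  Or.inl ⟨0, by simp, pt_left _ _⟩

lemma pair_eq (i : Fin 8) : pair i = cell i ∪ cell (i + 1) := by
  unfold pair
  apply Set.Subset.antisymm
  · rintro x ((hx | ⟨t, ht, rfl⟩) | hx)
    · exact Or.inl hx
    · by_cases h : t = 1
      · subst h
        rw [pt_right]
        exact Or.inr (mem_cell_hub (i + 1))
      · exact Or.inl (Or.inr ⟨t, ⟨ht.1, lt_of_le_of_ne ht.2 h⟩, rfl⟩)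
    · exact Or.inr hx
  · rintro x (hx | hx)
    · exact Or.inl (Or.inl hx)
    · exact Or.inr hx

lemma cell_coord {i : Fin 8} {x : (Fin 8 × Bool) → ℝ} (hx : x ∈ cell i) :
    (0 < x (hub i) ∨ 0 < x (leaf i)) ∧
      ∀ y, y ≠ hub i → y ≠ leaf i → y ≠ hub (i + 1) → x y = 0 := by
  rcases hx with ⟨t, ht, rfl⟩ | ⟨t, ht, rfl⟩
  · refine ⟨?_, fun y h1 h2 _ => pt_apply_other h1 h2 t⟩
    rw [pt_apply_left (adj_pend i).ne, pt_apply_right (adj_pend i).ne]
    by_cases h : t < 1
    · left; linarith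
    · right; linarith
  · refine ⟨?_, fun y h1 _ h3 => pt_apply_other h1 h3 t⟩
    rw [pt_apply_left (hub_ne i)]
    left; linarith [ht.2]

lemma cell_disjoint {i j : Fin 8} (hij : i ≠ j) : Disjoint (cell i) (cell j) := by
  rw [Set.disjoint_left]
  intro x hi hj
  have key : ∀ i j : Fin 8, i ≠ j → x ∈ cell i → x ∈ cell j → j = i + 1 := by
    intro i j hij hi hj
    obtain ⟨_, h2⟩ := cell_coord hi
    obtain ⟨h3, _⟩ := cell_coord hj
    by_contra hne
    rcases h3 with h3 | h3
    · have := h2 (hub j) (by simp [hij.symm]) (by simp) (by simpa using hne)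
      linarith
    · have := h2 (leaf j) (by simp) (by simp [hij.symm]) (by simp)
      linarith
  have h1 := key i j hij hi hj
  have h2 := key j i hij.symm hj hi
  rw [h1] at h2
  exact absurd h2 ((by decide : ∀ i : Fin 8, i ≠ i + 1 + 1) i)

lemma cake_cells : cake sun = ⋃ i, cell i := by
  apply Set.Subset.antisymm
  · rintro x (⟨⟨i, b⟩, rfl⟩ | ⟨u, w, huw, t, ht, rfl⟩)
    · cases b
      · exact Set.mem_iUnion.mpr ⟨i, mem_cell_hub i⟩
      · exact Set.mem_iUnion.mpr ⟨i, Or.inl ⟨1, by simp, pt_right _ _⟩⟩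
    · have hcyc : ∀ (i : Fin 8) (t : ℝ), t ∈ Icc (0 : ℝ) 1 →
          pt (hub i) (hub (i + 1)) t ∈ ⋃ i, cell i := by
        intro i t ht
        by_cases h : t = 1
        · subst h
          rw [pt_right]
          exact Set.mem_iUnion.mpr ⟨i + 1, mem_cell_hub (i + 1)⟩
        · exact Set.mem_iUnion.mpr ⟨i, Or.inr ⟨t, ⟨ht.1, lt_of_le_of_ne ht.2 h⟩, rfl⟩⟩
      have ht' : (1 - t) ∈ Icc (0 : ℝ) 1 := ⟨by linarith [ht.2], by linarith [ht.1]⟩
      obtain ⟨i, b⟩ := u
      obtain ⟨j, c⟩ := w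
      rcases huw with ⟨h1, h2⟩ | ⟨h1, h2, h3⟩
      · simp only at h1 h2
        subst h1
        cases b <;> cases c
        · exact absurd rfl h2
        · exact Set.mem_iUnion.mpr ⟨i, Or.inl ⟨t, ht, rfl⟩⟩
        · rw [pt_symm]
          exact Set.mem_iUnion.mpr ⟨i, Or.inl ⟨1 - t, ht', rfl⟩⟩
        · exact absurd rfl h2
      · simp only at h1 h2 h3
        subst h1 h2
        rcases h3 with h3 | h3
        · subst h3
          exact hcyc i t ht
        · subst h3
          rw [pt_symm]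
          exact hcyc j (1 - t) ht'
  · intro x hx
    obtain ⟨i, hx⟩ := Set.mem_iUnion.mp hx
    rcases hx with ⟨t, ht, rfl⟩ | ⟨t, ht, rfl⟩
    · exact Or.inr ⟨_, _, adj_pend i, t, ht, rfl⟩
    · exact Or.inr ⟨_, _, adj_cyc i, t, ⟨ht.1, ht.2.le⟩, rfl⟩

lemma isPiece_pair (i : Fin 8) : IsPiece sun (pair i) := by
  classical
  refine ⟨{pt (hub i) (leaf i) '' Icc 0 1, pt (hub i) (hub (i + 1)) '' Ico 0 1,
    pt (hub i) (hub (i + 1)) '' Icc 0 1, pt (hub (i + 1)) (leaf (i + 1)) '' Icc 0 1,
    pt (hub (i + 1)) (hub (i + 1 + 1)) '' Ico 0 1}, ?_, ?_⟩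
  · intro I hI
    simp only [Finset.mem_insert, Finset.mem_singleton] at hI
    rcases hI with rfl | rfl | rfl | rfl | rfl
    · exact ⟨_, _, adj_pend i, _, le_rfl, ordConnected_Icc, rfl⟩
    · exact ⟨_, _, adj_cyc i, _, Ico_subset_Icc_self, ordConnected_Ico, rfl⟩
    · exact ⟨_, _, adj_cyc i, _, le_rfl, ordConnected_Icc, rfl⟩
    · exact ⟨_, _, adj_pend (i + 1), _, le_rfl, ordConnected_Icc, rfl⟩
    · exact ⟨_, _, adj_cyc (i + 1), _, Ico_subset_Icc_self, ordConnected_Ico, rfl⟩
  · ext x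
    simp only [pair, cell, Finset.mem_insert, Finset.mem_singleton, iUnion_iUnion_eq_or_left,
      iUnion_iUnion_eq_left, mem_union]
    tauto

lemma pathConn_image {u w : Fin 8 × Bool} {T : Set ℝ} (hT : Convex ℝ T) (hne : T.Nonempty) :
    IsPathConnected (pt u w '' T) :=
  (hT.isPathConnected hne).image (continuous_pt u w)

lemma pathConn_cell (i : Fin 8) : IsPathConnected (cell i) := by
  refine (pathConn_image (convex_Icc 0 1) ⟨0, by simp⟩).union
    (pathConn_image (convex_Ico 0 1) ⟨0, by simp⟩) ⟨Pi.single (hub i) 1, ?_, ?_⟩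
  · exact ⟨0, by simp, pt_left _ _⟩
  · exact ⟨0, by simp, pt_left _ _⟩

lemma connectedPiece_pair (i : Fin 8) : IsConnectedPiece sun (pair i) := by
  refine ⟨isPiece_pair i, ?_⟩
  have h1 : IsPathConnected (cell i ∪ pt (hub i) (hub (i + 1)) '' Icc 0 1) := by
    refine (pathConn_cell i).union (pathConn_image (convex_Icc 0 1) ⟨0, by simp⟩)
      ⟨Pi.single (hub i) 1, mem_cell_hub i, ⟨0, by simp, pt_left _ _⟩⟩
  have h2 : IsPathConnected (pair i) := by
    refine h1.union (pathConn_cell (i + 1)) ⟨Pi.single (hub (i + 1)) 1, ?_, mem_cell_hub _⟩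
    exact Or.inr ⟨1, by simp, pt_right _ _⟩
  intro x hx y hy
  exact h2.joinedIn x hx y hy

/-- the partition of the cake into four consecutive pairs, starting at hub `s` -/
def part (s : Fin 8) (j : Fin 4) : Set ((Fin 8 × Bool) → ℝ) :=
  pair (s + 2 * ⟨(j : ℕ), by omega⟩)

lemma part_partition (s : Fin 8) : IsPartition sun (part s) := by
  refine ⟨⟨fun j => connectedPiece_pair _, ?_⟩, ?_⟩
  · intro i j hij
    have hne : ∀ s : Fin 8, ∀ i j : Fin 4, i ≠ j →
        (s + 2 * ⟨(i : ℕ), by omega⟩ : Fin 8) ≠ s + 2 * ⟨(j : ℕ), by omega⟩ ∧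
        (s + 2 * ⟨(i : ℕ), by omega⟩ : Fin 8) ≠ s + 2 * ⟨(j : ℕ), by omega⟩ + 1 ∧
        (s + 2 * ⟨(i : ℕ), by omega⟩ + 1 : Fin 8) ≠ s + 2 * ⟨(j : ℕ), by omega⟩ ∧
        (s + 2 * ⟨(i : ℕ), by omega⟩ + 1 : Fin 8) ≠ s + 2 * ⟨(j : ℕ), by omega⟩ + 1 := by
      decide
    obtain ⟨h1, h2, h3, h4⟩ := hne s i j hij
    unfold part
    rw [pair_eq, pair_eq]
    rw [Set.disjoint_union_left, Set.disjoint_union_right, Set.disjoint_union_right]
    exact ⟨⟨cell_disjoint h1, cell_disjoint h2⟩, cell_disjoint h3, cell_disjoint h4⟩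
  · rw [cake_cells]
    apply Set.Subset.antisymm
    · intro x hx
      obtain ⟨j, hx⟩ := Set.mem_iUnion.mp hx
      unfold part at hx
      rw [pair_eq] at hx
      rcases hx with hx | hx
      · exact Set.mem_iUnion.mpr ⟨_, hx⟩
      · exact Set.mem_iUnion.mpr ⟨_, hx⟩
    · intro x hx
      obtain ⟨i, hx⟩ := Set.mem_iUnion.mp hx
      have hex : ∀ s i : Fin 8, ∃ j : Fin 4, i = s + 2 * ⟨(j : ℕ), by omega⟩ ∨
          i = s + 2 * ⟨(j : ℕ), by omega⟩ + 1 := by decide
      obtain ⟨j, hj⟩ := hex s i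
      refine Set.mem_iUnion.mpr ⟨j, ?_⟩
      unfold part
      rw [pair_eq]
      rcases hj with hj | hj
      · left; rw [← hj]; exact hx
      · right; rw [← hj]; exact hx

lemma val_pair_ge (w : Fin 8 → ℕ) (i : Fin 8) : ((w i + w (i + 1) : ℕ) : ℝ) ≤ val w (pair i) := by
  classical
  have hfull : ∀ k, (k = i ∨ k = i + 1) →
      unitMeasure.real {t | pt (hub k) (leaf k) t ∈ pair i} = 1 := by
    intro k hk
    have h0 : Icc (0 : ℝ) 1 ⊆ {t | pt (hub k) (leaf k) t ∈ pair i} := by
      intro t ht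
      show pt (hub k) (leaf k) t ∈ pair i
      rw [pair_eq]
      rcases hk with rfl | rfl
      · exact Or.inl (Or.inl ⟨t, ht, rfl⟩)
      · exact Or.inr (Or.inl ⟨t, ht, rfl⟩)
    apply le_antisymm
    · rw [← unit_univ]
      exact measureReal_mono (Set.subset_univ _)
    · have h1 : unitMeasure.real (Icc (0 : ℝ) 1) = 1 := by
        simp [unitMeasure, Measure.real]
      rw [← h1]
      exact measureReal_mono h0
  have hne : i ≠ i + 1 := fun h => (hub_ne i) (by rw [← h])
  have h2 : ∑ k ∈ ({i, i + 1} : Finset (Fin 8)), (w k : ℝ) *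
      unitMeasure.real {t | pt (hub k) (leaf k) t ∈ pair i} ≤ val w (pair i) := by
    unfold val
    exact Finset.sum_le_sum_of_subset_of_nonneg (Finset.subset_univ _)
      fun _ _ _ => mul_nonneg (Nat.cast_nonneg _) measureReal_nonneg
  rw [Finset.sum_pair hne, hfull i (Or.inl rfl), hfull (i + 1) (Or.inr rfl), mul_one, mul_one] at h2
  exact_mod_cast h2

/-- the maximin share is bounded below by any common lower bound of a partition -/
lemma le_mms_of_partition (w : Fin 8 → ℕ) (s : Fin 8) (c : ℝ)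
    (h : ∀ j : Fin 4, c ≤ val w (part s j)) : c ≤ mms sun 4 (val w) := by
  refine le_csSup ⟨val w (cake sun), ?_⟩ ⟨part s, part_partition s, h⟩
  rintro a ⟨P, hP, ha⟩
  refine (ha 0).trans (val_mono w ?_)
  rw [← hP.2]
  exact Set.subset_iUnion P 0

/-- `type 1` weights -/
def w1 : Fin 8 → ℕ := ![1, 4, 4, 1, 3, 2, 2, 3]
/-- `type 2` weights -/
def w2 : Fin 8 → ℕ := ![4, 4, 1, 3, 2, 2, 3, 1]

lemma mms_w1 : 5 ≤ mms sun 4 (val w1) := by
  refine le_mms_of_partition w1 0 5 fun j => ?_
  refine le_trans ?_ (val_pair_ge w1 _)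
  have : ∀ j : Fin 4, 5 ≤ w1 (0 + 2 * ⟨(j : ℕ), by omega⟩) + w1 (0 + 2 * ⟨(j : ℕ), by omega⟩ + 1) := by
    decide
  exact_mod_cast this j

lemma mms_w2 : 5 ≤ mms sun 4 (val w2) := by
  refine le_mms_of_partition w2 1 5 fun j => ?_
  refine le_trans ?_ (val_pair_ge w2 _)
  have : ∀ j : Fin 4, 5 ≤ w2 (1 + 2 * ⟨(j : ℕ), by omega⟩) + w2 (1 + 2 * ⟨(j : ℕ), by omega⟩ + 1) := by
    decide
  exact_mod_cast this j

open Classical in
/-- the hubs contained in a piece -/
noncomputable def hubs (X : Set ((Fin 8 × Bool) → ℝ)) : Finset (Fin 8) :=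
  Finset.univ.filter (fun i => (Pi.single (hub i) 1 : (Fin 8 × Bool) → ℝ) ∈ X)

lemma mem_hubs {X : Set ((Fin 8 × Bool) → ℝ)} {i : Fin 8} :
    i ∈ hubs X ↔ (Pi.single (hub i) 1 : (Fin 8 × Bool) → ℝ) ∈ X := by
  simp [hubs]

lemma val_le_hubs (w : Fin 8 → ℕ) (hw : ∀ i, w i ≤ 4) {X : Set ((Fin 8 × Bool) → ℝ)}
    (hX : IsConnectedPiece sun X) (h5 : 5 ≤ val w X) : 5 ≤ ∑ i ∈ hubs X, w i := by
  have hle1 : ∀ i, unitMeasure.real {t | pt (hub i) (leaf i) t ∈ X} ≤ 1 := by
    intro i
    rw [← unit_univ]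
    exact measureReal_mono (Set.subset_univ _)
  -- if hub `i` is not in `X` then the pendant edge at `i` contributes nothing
  have hzero : ∀ i, i ∉ hubs X → unitMeasure.real {t | pt (hub i) (leaf i) t ∈ X} = 0 := by
    intro i hi
    rw [mem_hubs] at hi
    by_cases hex : ∃ x ∈ X, 0 < x (leaf i)
    · exfalso
      obtain ⟨x, hx, hxpos⟩ := hex
      have hsep : ∀ y ∈ X, 0 < y (leaf i) := by
        intro y hy
        have := separation (G := sun) {leaf i} {hub i} (X := X) ?_ ?_ ?_
          (piece_subset_cake hX.1) (connected_preconnected hX) ?_ hx hy (by simpa using hxpos)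
        · simpa using this
        · intro u hu w hw _
          simp only [Finset.mem_singleton] at hu ⊢
          subst hu
          obtain ⟨j, b⟩ := w
          rcases hw with ⟨h1, h2⟩ | ⟨h1, _, _⟩
          · simp only at h1 h2
            subst h1
            cases b
            · rfl
            · exact absurd rfl h2
          · simp at h1
        · simp
        · intro u hu w hw
          simp only [Finset.mem_singleton] at hu hw
          subst hu; subst hw
          exact SimpleGraph.irrefl _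
        · intro b hb
          simp only [Finset.mem_singleton] at hb
          subst hb
          exact hi
      have hother : ∀ k, k ≠ i → unitMeasure.real {t | pt (hub k) (leaf k) t ∈ X} = 0 := by
        intro k hk
        have : {t | pt (hub k) (leaf k) t ∈ X} = ∅ := by
          ext t
          simp only [mem_ofPred_eq, mem_empty_iff_false, iff_false]
          intro ht
          have := hsep _ ht
          rw [pt_apply_other (by simp) (by simp [hk.symm])] at this
          exact lt_irrefl _ this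
        rw [this]
        simp
      have hval : val w X = (w i : ℝ) * unitMeasure.real {t | pt (hub i) (leaf i) t ∈ X} := by
        unfold val
        rw [Finset.sum_eq_single i]
        · intro k _ hk
          rw [hother k hk, mul_zero]
        · intro h; exact absurd (Finset.mem_univ i) h
      rw [hval] at h5
      have h6 : (w i : ℝ) * unitMeasure.real {t | pt (hub i) (leaf i) t ∈ X} ≤ 4 * 1 :=
        mul_le_mul (by exact_mod_cast hw i) (hle1 i) measureReal_nonneg (by norm_num)
      linarith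
    · push Not at hex
      have hsub : {t | pt (hub i) (leaf i) t ∈ X} ⊆ Iic 0 := by
        intro t ht
        have := hex _ ht
        rw [pt_apply_right (adj_pend i).ne] at this
        exact this
      have h0 : unitMeasure (Iic (0 : ℝ)) = 0 := by
        unfold unitMeasure
        rw [Measure.restrict_apply measurableSet_Iic]
        have : Iic (0 : ℝ) ∩ Icc 0 1 ⊆ {0} := by
          rintro x ⟨h1, h2⟩
          exact le_antisymm h1 h2.1
        exact measure_mono_null this Real.volume_singleton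
      unfold Measure.real
      rw [measure_mono_null hsub h0]
      simp
  have hval : val w X ≤ ((∑ i ∈ hubs X, w i : ℕ) : ℝ) := by
    unfold val
    rw [← Finset.sum_subset (Finset.subset_univ (hubs X))]
    · push_cast
      refine Finset.sum_le_sum fun i _ => ?_
      exact mul_le_of_le_one_right (Nat.cast_nonneg _) (hle1 i)
    · intro i _ hi
      rw [hzero i hi, mul_zero]
  exact_mod_cast h5.trans hval

/-- an isolated hub of a connected piece is the only hub -/
lemma hubs_isolated {X : Set ((Fin 8 × Bool) → ℝ)} (hX : IsConnectedPiece sun X) {i : Fin 8}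
    (hi : i ∈ hubs X) (h1 : i + 1 ∉ hubs X) (h2 : i - 1 ∉ hubs X) : ∀ j ∈ hubs X, j = i := by
  intro j hj
  by_contra hne
  rw [mem_hubs] at hi h1 h2 hj
  have := separation (G := sun) {hub i, leaf i} {hub (i + 1), hub (i - 1)} (X := X) ?_ ?_ ?_
    (piece_subset_cake hX.1) (connected_preconnected hX) ?_ hi hj ?_
  · rw [Finset.sum_pair (by simp)] at this
    simp [hne, Ne.symm hne] at this
  · intro u hu w hw hwS
    simp only [Finset.mem_insert, Finset.mem_singleton] at hu hwS ⊢
    push Not at hwS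
    obtain ⟨k, b⟩ := w
    rcases hu with rfl | rfl
    · rcases hw with ⟨h3, h4⟩ | ⟨_, h4, h5⟩
      · simp only at h3 h4
        subst h3
        cases b
        · exact absurd rfl h4
        · exact absurd rfl hwS.2
      · simp only at h4 h5
        subst h4
        rcases h5 with h5 | h5
        · left; rw [h5]
        · right
          rw [h5]
          simp
    · rcases hw with ⟨h3, h4⟩ | ⟨h3, _, _⟩
      · simp only at h3 h4
        subst h3
        cases b
        · exact absurd rfl hwS.1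
        · exact absurd rfl h4
      · simp at h3
  · rw [Finset.disjoint_left]
    intro u hu hv
    simp only [Finset.mem_insert, Finset.mem_singleton] at hu hv
    have hA : ∀ i : Fin 8, i ≠ i + 1 ∧ i ≠ i - 1 := by decide
    rcases hu with rfl | rfl
    · rcases hv with h | h
      · exact (hA i).1 (by simpa using h)
      · exact (hA i).2 (by simpa using h)
    · rcases hv with h | h <;> simp at h
  · intro u hu w hw hadj
    simp only [Finset.mem_insert, Finset.mem_singleton] at hu hw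
    have hA : ∀ i : Fin 8, i + 1 ≠ i - 1 ∧ i + 1 ≠ i - 1 + 1 ∧ i - 1 ≠ i + 1 + 1 ∧
      i + 1 ≠ i + 1 + 1 ∧ i - 1 ≠ i - 1 + 1 := by decide
    obtain ⟨a1, a2, a3, a4, a5⟩ := hA i
    rcases hu with rfl | rfl <;> rcases hw with rfl | rfl <;>
      rcases hadj with ⟨h3, h4⟩ | ⟨_, _, h5 | h5⟩ <;> simp_all
  · intro b hb
    simp only [Finset.mem_insert, Finset.mem_singleton] at hb
    rcases hb with rfl | rfl
    · exact h1
    · exact h2
  · rw [Finset.sum_pair (by simp)]
    simp

/-- the combinatorial core -/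
lemma core (H : Fin 4 → Finset (Fin 8)) (hdisj : ∀ i j, i ≠ j → Disjoint (H i) (H j))
    (hiso : ∀ a, ∀ i ∈ H a, i + 1 ∉ H a → i - 1 ∉ H a → ∀ j ∈ H a, j = i)
    (h0 : 5 ≤ ∑ i ∈ H 0, w1 i) (h1 : 5 ≤ ∑ i ∈ H 1, w1 i)
    (h2 : 5 ≤ ∑ i ∈ H 2, w2 i) (h3 : 5 ≤ ∑ i ∈ H 3, w2 i) : False := by
  have hw1 : ∀ i, w1 i ≤ 4 := by decide
  have hw2 : ∀ i, w2 i ≤ 4 := by decide
  have hcard2 : ∀ (w : Fin 8 → ℕ), (∀ i, w i ≤ 4) → ∀ S : Finset (Fin 8), 5 ≤ ∑ i ∈ S, w i →
      2 ≤ S.card := by
    intro w hw S hS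
    by_contra hc
    push Not at hc
    have : ∑ i ∈ S, w i ≤ S.card * 4 := by
      rw [← smul_eq_mul]
      exact Finset.sum_le_card_nsmul _ _ _ fun i _ => hw i
    omega
  have c0 := hcard2 w1 hw1 _ h0
  have c1 := hcard2 w1 hw1 _ h1
  have c2 := hcard2 w2 hw2 _ h2
  have c3 := hcard2 w2 hw2 _ h3
  have hsum : ∑ a, (H a).card ≤ 8 := by
    rw [← Finset.card_biUnion (fun i _ j _ hij => hdisj i j hij)]
    exact (Finset.card_le_univ _).trans (by simp)
  rw [Fin.sum_univ_four] at hsum
  have hpair : ∀ a, (H a).card = 2 → ∃ i : Fin 8, H a = {i, i + 1} := by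
    intro a ha
    obtain ⟨x, y, hxy, hH⟩ := Finset.card_eq_two.mp ha
    by_cases hy : y = x + 1
    · exact ⟨x, by rw [hH, hy]⟩
    · by_cases hx : x = y + 1
      · exact ⟨y, by rw [hH, hx, Finset.pair_comm]⟩
      · exfalso
        have hA : ∀ x : Fin 8, x + 1 ≠ x ∧ x - 1 ≠ x := by decide
        have h5 := hiso a x (by rw [hH]; simp) (by
          rw [hH]
          simp only [Finset.mem_insert, Finset.mem_singleton, not_or]
          exact ⟨(hA x).1, fun h => hy h.symm⟩) (by
          rw [hH]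
          simp only [Finset.mem_insert, Finset.mem_singleton, not_or]
          exact ⟨(hA x).2, fun h => hx (by rw [← h]; simp)⟩) y (by rw [hH]; simp)
        exact hxy h5.symm
  obtain ⟨i0, e0⟩ := hpair 0 (by omega)
  obtain ⟨i1, e1⟩ := hpair 1 (by omega)
  obtain ⟨i2, e2⟩ := hpair 2 (by omega)
  obtain ⟨i3, e3⟩ := hpair 3 (by omega)
  have hne : ∀ i : Fin 8, i ≠ i + 1 := by decide
  rw [e0, Finset.sum_pair (hne _)] at h0
  rw [e1, Finset.sum_pair (hne _)] at h1
  rw [e2, Finset.sum_pair (hne _)] at h2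
  rw [e3, Finset.sum_pair (hne _)] at h3
  have hd : ∀ i j : Fin 8, Disjoint ({i, i + 1} : Finset (Fin 8)) {j, j + 1} →
      j ≠ i ∧ j ≠ i + 1 ∧ i ≠ j + 1 := by decide
  have d01 := hd i0 i1 (by rw [← e0, ← e1]; exact hdisj 0 1 (by decide))
  have d02 := hd i0 i2 (by rw [← e0, ← e2]; exact hdisj 0 2 (by decide))
  have d03 := hd i0 i3 (by rw [← e0, ← e3]; exact hdisj 0 3 (by decide))
  have d12 := hd i1 i2 (by rw [← e1, ← e2]; exact hdisj 1 2 (by decide))
  have d13 := hd i1 i3 (by rw [← e1, ← e3]; exact hdisj 1 3 (by decide))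
  have d23 := hd i2 i3 (by rw [← e2, ← e3]; exact hdisj 2 3 (by decide))
  have hfin : ∀ i0 i1 i2 i3 : Fin 8, 5 ≤ w1 i0 + w1 (i0 + 1) → 5 ≤ w1 i1 + w1 (i1 + 1) →
      5 ≤ w2 i2 + w2 (i2 + 1) → 5 ≤ w2 i3 + w2 (i3 + 1) →
      (i1 ≠ i0 ∧ i1 ≠ i0 + 1 ∧ i0 ≠ i1 + 1) → (i2 ≠ i0 ∧ i2 ≠ i0 + 1 ∧ i0 ≠ i2 + 1) →
      (i3 ≠ i0 ∧ i3 ≠ i0 + 1 ∧ i0 ≠ i3 + 1) → (i2 ≠ i1 ∧ i2 ≠ i1 + 1 ∧ i1 ≠ i2 + 1) →
      (i3 ≠ i1 ∧ i3 ≠ i1 + 1 ∧ i1 ≠ i3 + 1) → (i3 ≠ i2 ∧ i3 ≠ i2 + 1 ∧ i2 ≠ i3 + 1) → False := by
    decide +kernel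
  exact hfin i0 i1 i2 i3 h0 h1 h2 h3 d01 d02 d03 d12 d13 d23

theorem main : ∃ (V : Type) (_ : Fintype V) (_ : DecidableEq V) (G : SimpleGraph V),
    0 < mmsRankAdd G := by
  refine ⟨Fin 8 × Bool, inferInstance, inferInstance, sun, ?_⟩
  have hno : ¬ GuaranteeAdd sun 0 := by
    intro hG
    obtain ⟨X, hX, hv⟩ := hG 4 (by norm_num) ![val w1, val w1, val w2, val w2] (by
      have hw1 : ∀ i, w1 i ≤ 4 := by decide
      have hw2 : ∀ i, w2 i ≤ 4 := by decide
      intro i
      fin_cases i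
      · exact ⟨val_valuation w1 hw1, val_additive w1⟩
      · exact ⟨val_valuation w1 hw1, val_additive w1⟩
      · exact ⟨val_valuation w2 hw2, val_additive w2⟩
      · exact ⟨val_valuation w2 hw2, val_additive w2⟩)
    have hw1 : ∀ i, w1 i ≤ 4 := by decide
    have hw2 : ∀ i, w2 i ≤ 4 := by decide
    have v0 : 5 ≤ val w1 (X 0) := mms_w1.trans (hv 0)
    have v1 : 5 ≤ val w1 (X 1) := mms_w1.trans (hv 1)
    have v2 : 5 ≤ val w2 (X 2) := mms_w2.trans (hv 2)
    have v3 : 5 ≤ val w2 (X 3) := mms_w2.trans (hv 3)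
    refine core (fun a => hubs (X a)) ?_ ?_ (val_le_hubs w1 hw1 (hX.1 0) v0)
      (val_le_hubs w1 hw1 (hX.1 1) v1) (val_le_hubs w2 hw2 (hX.1 2) v2)
      (val_le_hubs w2 hw2 (hX.1 3) v3)
    · intro i j hij
      rw [Finset.disjoint_left]
      intro k hk hk'
      rw [mem_hubs] at hk hk'
      exact Set.disjoint_left.mp (hX.2 i j hij) hk hk'
    · intro a i hi h1 h2
      exact hubs_isolated (hX.1 a) hi h1 h2
  unfold mmsRankAdd
  rw [← Order.one_le_iff_pos]
  refine le_iInf fun r => le_iInf fun hr => ?_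
  rcases Nat.eq_zero_or_pos r with h | h
  · subst h; exact absurd hr hno
  · exact_mod_cast h


end Pool.Agent.Helper73.ARP
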